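import Pool.Agent.Helper27.TW.Defs

/-!
# Enclosures of `js`, `rs`, `sst` at `η = √3`
-/

set_option autoImplicit false

namespace Pool.Agent.Helper83.TW

open Pool.Agent.Helper27.TW

section poly
variable {K : Type*} [Field K]

def A0 (u : K) : K := 1 + u ^ 3 / 5040 + u ^ 6 / 6227020800 + u ^ 9 / 121645100408832000
def A1 (u : K) : K := u / 6 + u ^ 4 / 362880 + u ^ 7 / 1307674368000
def A2 (u : K) : K := u ^ 2 / 120 + u ^ 5 / 39916800 + u ^ 8 / 355687428096000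

/-- approximation of `sst` -/
def qp (x : K) : K :=
  x ^ 2 * (A0 (4 * x ^ 2) ^ 2 + A1 (4 * x ^ 2) ^ 2 + A2 (4 * x ^ 2) ^ 2 -
    A0 (4 * x ^ 2) * A1 (4 * x ^ 2) - A1 (4 * x ^ 2) * A2 (4 * x ^ 2) -
    A0 (4 * x ^ 2) * A2 (4 * x ^ 2))

/-- approximation of `js / (2 √3)` -/
def pp (x : K) : K := x * (A1 (4 * x ^ 2) - A2 (4 * x ^ 2))

end poly

theorem sq3 : (√3 : ℝ) * √3 = 3 := Real.mul_self_sqrt (by norm_num)

theorem sq3c : ((√3 : ℝ) : ℂ) * ((√3 : ℝ) : ℂ) = 3 := by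
  rw [← Complex.ofReal_mul, sq3]; norm_num

theorem js_rs_sq (x : ℝ) : js x (√3) ^ 2 + rs x (√3) ^ 2 = 16 * sst x := by
  unfold js rs sst
  have h1 := Real.sin_sq_add_cos_sq (√3 * x)
  have h2 := Real.cosh_sq x
  have h3 := sq3
  set s := Real.sin (√3 * x)
  set c := Real.cos (√3 * x)
  set C := Real.cosh x
  set S := Real.sinh x
  set r := (√3 : ℝ)
  have e : (C * s - r * (S * c)) ^ 2 + (S * c + r * (C * s)) ^ 2 =
      (1 + r * r) * (C ^ 2 * s ^ 2 + S ^ 2 * c ^ 2) := by ring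
  rw [e, h3, h2]
  have hc : c ^ 2 = 1 - s ^ 2 := by linarith
  rw [hc]; ring

/-- the complex number `rs + i js` -/
theorem rs_js (x : ℝ) : ((rs x (√3) : ℝ) : ℂ) + ((js x (√3) : ℝ) : ℂ) * Complex.I =
    Complex.sinh ((x : ℂ) * (1 + (√3 : ℝ) * Complex.I)) * (1 - (√3 : ℝ) * Complex.I) := by
  have e : (x : ℂ) * (1 + (√3 : ℝ) * Complex.I) = (x : ℂ) + ((√3 * x : ℝ) : ℂ) * Complex.I := by
    push_cast; ring
  rw [e, Complex.sinh_add, Complex.sinh_mul_I, Complex.cosh_mul_I]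
  rw [← Complex.ofReal_sinh, ← Complex.ofReal_cosh, ← Complex.ofReal_sin, ← Complex.ofReal_cos]
  unfold rs js
  have hI := Complex.I_mul_I
  push_cast
  have : Complex.I ^ 2 = -1 := Complex.I_sq
  ring_nf
  simp only [Complex.I_sq]
  ring

theorem sinh_approx {x : ℝ} (h0 : 0 ≤ x) (h1 : x ≤ 9 / 5) :
    ‖Complex.sinh ((x : ℂ) * (1 + (√3 : ℝ) * Complex.I)) -
      ((x : ℂ) * (1 + (√3 : ℝ) * Complex.I)) *
        ((A0 (4 * x ^ 2) : ℝ) + (A1 (4 * x ^ 2) : ℝ) * ((-1 + (√3 : ℝ) * Complex.I) / 2) +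
          (A2 (4 * x ^ 2) : ℝ) * ((-1 - (√3 : ℝ) * Complex.I) / 2))‖ ≤ 11 / 100000000 := by
  set ζ : ℂ := 1 + (√3 : ℝ) * Complex.I with hζ
  set w : ℂ := (x : ℂ) * ζ with hw
  have hI : Complex.I * Complex.I = -1 := Complex.I_mul_I
  have h3 := sq3c
  have hζ2 : ζ ^ 2 = -2 + 2 * ((√3 : ℝ) : ℂ) * Complex.I := by
    rw [hζ]
    linear_combination (Complex.I * Complex.I) * h3 + 3 * hI
  have hn : ‖ζ‖ = 2 := by
    have : ‖ζ‖ ^ 2 = 2 ^ 2 := by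
      rw [← Complex.normSq_eq_norm_sq, hζ, Complex.normSq_apply]
      simp
      have := sq3
      linarith
    nlinarith [norm_nonneg ζ]
  have hwn : ‖w‖ = 2 * x := by
    rw [hw, norm_mul, hn, Complex.norm_real, Real.norm_of_nonneg h0]; ring
  have b1 := Complex.exp_bound' (x := w) (n := 20) (by rw [hwn]; norm_num; linarith)
  have b2 := Complex.exp_bound' (x := -w) (n := 20) (by rw [norm_neg, hwn]; norm_num; linarith)
  rw [norm_neg] at b2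
  rw [hwn] at b1 b2
  have hb : (2 * x) ^ 20 / (Nat.factorial 20 : ℕ) * 2 ≤ 11 / 100000000 := by
    have : (2 * x) ^ 20 ≤ (18 / 5) ^ 20 := pow_le_pow_left₀ (by linarith) (by linarith) 20
    have h2 : (0 : ℝ) < (Nat.factorial 20 : ℕ) := by positivity
    calc (2 * x) ^ 20 / (Nat.factorial 20 : ℕ) * 2 ≤ (18 / 5) ^ 20 / (Nat.factorial 20 : ℕ) * 2 := by
          gcongr
      _ ≤ 11 / 100000000 := by
          norm_num [Nat.factorial]
  have key : w * ((A0 (4 * x ^ 2) : ℝ) + (A1 (4 * x ^ 2) : ℝ) * ((-1 + (√3 : ℝ) * Complex.I) / 2) +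
          (A2 (4 * x ^ 2) : ℝ) * ((-1 - (√3 : ℝ) * Complex.I) / 2)) =
      ((∑ m ∈ Finset.range 20, w ^ m / (m.factorial : ℂ)) -
        (∑ m ∈ Finset.range 20, (-w) ^ m / (m.factorial : ℂ))) / 2 := by
    set z : ℂ := w ^ 2 with hz
    have hz1 : z = (4 * (x : ℂ) ^ 2) * ((-1 + (√3 : ℝ) * Complex.I) / 2) := by
      rw [hz, hw, mul_pow, hζ2]; ring
    have hz2 : z ^ 2 = (4 * (x : ℂ) ^ 2) ^ 2 * ((-1 - (√3 : ℝ) * Complex.I) / 2) := by
      rw [hz1]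
      linear_combination (4 * (x : ℂ) ^ 2) ^ 2 / 4 * ((Complex.I * Complex.I) * h3 + 3 * hI)
    have hz3 : z ^ 3 = (4 * (x : ℂ) ^ 2) ^ 3 := by
      have : z ^ 3 = z ^ 2 * z := by ring
      rw [this, hz2, hz1]
      linear_combination (4 * (x : ℂ) ^ 2) ^ 3 / 4 * (-(Complex.I * Complex.I) * h3 - 3 * hI)
    have e1 : ((∑ m ∈ Finset.range 20, w ^ m / (m.factorial : ℂ)) -
        (∑ m ∈ Finset.range 20, (-w) ^ m / (m.factorial : ℂ))) / 2 =
        w * (1 + z / 6 + z ^ 2 / 120 + z ^ 3 / 5040 + z ^ 3 * z / 362880 + z ^ 3 * z ^ 2 / 39916800 +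
          (z ^ 3) ^ 2 / 6227020800 + (z ^ 3) ^ 2 * z / 1307674368000 +
          (z ^ 3) ^ 2 * z ^ 2 / 355687428096000 + (z ^ 3) ^ 3 / 121645100408832000) := by
      rw [hz]
      simp only [Finset.sum_range_succ, Finset.sum_range_zero, Nat.factorial]
      push_cast
      ring
    rw [e1, hz3, hz2, hz1]
    simp only [A0, A1, A2]
    push_cast
    ring
  rw [key]
  have e2 : Complex.sinh w - ((∑ m ∈ Finset.range 20, w ^ m / (m.factorial : ℂ)) -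
        (∑ m ∈ Finset.range 20, (-w) ^ m / (m.factorial : ℂ))) / 2 =
      ((Complex.exp w - ∑ m ∈ Finset.range 20, w ^ m / (m.factorial : ℂ)) -
        (Complex.exp (-w) - ∑ m ∈ Finset.range 20, (-w) ^ m / (m.factorial : ℂ))) / 2 := by
    rw [Complex.sinh]; ring
  rw [e2, norm_div]
  have e3 := norm_sub_le (Complex.exp w - ∑ m ∈ Finset.range 20, w ^ m / (m.factorial : ℂ))
    (Complex.exp (-w) - ∑ m ∈ Finset.range 20, (-w) ^ m / (m.factorial : ℂ))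
  have e4 : ‖(2 : ℂ)‖ = 2 := by norm_num
  rw [e4, div_le_iff₀ (by norm_num)]
  linarith

theorem rs_js_approx {x : ℝ} (h0 : 0 ≤ x) (h1 : x ≤ 9 / 5) :
    ‖(((rs x (√3) : ℝ) : ℂ) + ((js x (√3) : ℝ) : ℂ) * Complex.I) - (4 * (x : ℂ)) *
        ((A0 (4 * x ^ 2) : ℝ) + (A1 (4 * x ^ 2) : ℝ) * ((-1 + (√3 : ℝ) * Complex.I) / 2) +
          (A2 (4 * x ^ 2) : ℝ) * ((-1 - (√3 : ℝ) * Complex.I) / 2))‖ ≤ 22 / 100000000 := by
  have hI : Complex.I * Complex.I = -1 := Complex.I_mul_I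
  have h3 := sq3c
  have h := sinh_approx h0 h1
  set X : ℂ := ((A0 (4 * x ^ 2) : ℝ) + (A1 (4 * x ^ 2) : ℝ) * ((-1 + (√3 : ℝ) * Complex.I) / 2) +
          (A2 (4 * x ^ 2) : ℝ) * ((-1 - (√3 : ℝ) * Complex.I) / 2))
  rw [rs_js x]
  have e : Complex.sinh ((x : ℂ) * (1 + (√3 : ℝ) * Complex.I)) * (1 - (√3 : ℝ) * Complex.I) -
      (4 * (x : ℂ)) * X = (Complex.sinh ((x : ℂ) * (1 + (√3 : ℝ) * Complex.I)) -
      ((x : ℂ) * (1 + (√3 : ℝ) * Complex.I)) * X) * (1 - (√3 : ℝ) * Complex.I) := by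
    linear_combination (x : ℂ) * X * ((-1) * (Complex.I * Complex.I) * h3 - 3 * hI)
  rw [e, norm_mul]
  have hn : ‖(1 - (√3 : ℝ) * Complex.I : ℂ)‖ = 2 := by
    have : ‖(1 - (√3 : ℝ) * Complex.I : ℂ)‖ ^ 2 = 2 ^ 2 := by
      rw [← Complex.normSq_eq_norm_sq, Complex.normSq_apply]
      simp
      have := sq3
      linarith
    nlinarith [norm_nonneg (1 - (√3 : ℝ) * Complex.I : ℂ)]
  rw [hn]
  linarith

theorem A_bounds {u : ℝ} (h0 : 0 ≤ u) (h1 : u ≤ 13) :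
    0 ≤ A0 u ∧ 0 ≤ A1 u ∧ 0 ≤ A2 u ∧ A0 u + A1 u + A2 u ≤ 5.13 ∧ A2 u ≤ A1 u := by
  have p2 : u ^ 2 ≤ 13 ^ 2 := pow_le_pow_left₀ h0 h1 2
  have p3 : u ^ 3 ≤ 13 ^ 3 := pow_le_pow_left₀ h0 h1 3
  have p4 : u ^ 4 ≤ 13 ^ 4 := pow_le_pow_left₀ h0 h1 4
  have p5 : u ^ 5 ≤ 13 ^ 5 := pow_le_pow_left₀ h0 h1 5
  have p6 : u ^ 6 ≤ 13 ^ 6 := pow_le_pow_left₀ h0 h1 6
  have p7 : u ^ 7 ≤ 13 ^ 7 := pow_le_pow_left₀ h0 h1 7
  have p8 : u ^ 8 ≤ 13 ^ 8 := pow_le_pow_left₀ h0 h1 8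
  have p9 : u ^ 9 ≤ 13 ^ 9 := pow_le_pow_left₀ h0 h1 9
  refine ⟨by unfold A0; positivity, by unfold A1; positivity, by unfold A2; positivity, ?_, ?_⟩
  · unfold A0 A1 A2
    linarith
  · unfold A1 A2
    have q1 : u ^ 2 ≤ 13 * u := by nlinarith
    have q2 : u ^ 5 ≤ 13 * u ^ 4 := by
      have := mul_le_mul_of_nonneg_right h1 (pow_nonneg h0 4)
      calc u ^ 5 = u * u ^ 4 := by ring
        _ ≤ _ := this
    have q3 : u ^ 8 ≤ 13 * u ^ 7 := by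
      have := mul_le_mul_of_nonneg_right h1 (pow_nonneg h0 7)
      calc u ^ 8 = u * u ^ 7 := by ring
        _ ≤ _ := this
    have q4 := pow_nonneg h0 4
    have q7 := pow_nonneg h0 7
    linarith

theorem js_approx {x : ℝ} (h0 : 0 ≤ x) (h1 : x ≤ 9 / 5) :
    |js x (√3) - 2 * √3 * pp x| ≤ 22 / 100000000 := by
  have h := rs_js_approx h0 h1
  refine le_trans ?_ ((Complex.abs_im_le_norm _).trans h)
  apply le_of_eq
  congr 1
  simp only [pp]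
  simp
  ring

theorem js_sq_le {x : ℝ} (h0 : 0 ≤ x) (h1 : x ≤ 9 / 5) :
    js x (√3) ^ 2 ≤ 12 * pp x ^ 2 + (7 * pp x + 1) * (1 / 1000000) := by
  have h := js_approx h0 h1
  have hu : 4 * x ^ 2 ≤ 13 := by nlinarith
  have hp : 0 ≤ pp x := by
    unfold pp
    exact mul_nonneg h0 (sub_nonneg.2 (A_bounds (by positivity) hu).2.2.2.2)
  have h3 := sq3
  have h30 : 0 ≤ √3 := Real.sqrt_nonneg 3
  have h31 : √3 ≤ 7 / 4 := by nlinarith
  rw [abs_le] at h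
  obtain ⟨ha, hb⟩ := h
  set p := pp x
  set j := js x (√3)
  set r := √3
  set δ : ℝ := 22 / 100000000 with hδ
  have hj : |j| ≤ 2 * r * p + δ := by
    rw [abs_le]
    constructor
    · have : 0 ≤ 2 * r * p := by positivity
      linarith
    · linarith
  have hjj : j ^ 2 ≤ (2 * r * p + δ) ^ 2 := by
    rw [← sq_abs j]
    exact pow_le_pow_left₀ (abs_nonneg j) hj 2
  have e : (2 * r * p + δ) ^ 2 = 12 * p ^ 2 + 4 * δ * (r * p) + δ ^ 2 := by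
    linear_combination 4 * p ^ 2 * h3
  have hrp : r * p ≤ 7 / 4 * p := mul_le_mul_of_nonneg_right h31 hp
  rw [e] at hjj
  have h6 : δ ^ 2 ≤ 1 / 1000000 := by rw [hδ]; norm_num
  have h5 : 4 * δ * (r * p) ≤ 7 * p * (1 / 1000000) := by
    rw [hδ]
    have : 0 ≤ r * p := mul_nonneg h30 hp
    nlinarith
  calc j ^ 2 ≤ 12 * p ^ 2 + 4 * δ * (r * p) + δ ^ 2 := hjj
    _ ≤ 12 * p ^ 2 + 7 * p * (1 / 1000000) + 1 / 1000000 := by gcongr
    _ = _ := by ring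

theorem sst_ge {x : ℝ} (h0 : 0 ≤ x) (h1 : x ≤ 9 / 5) :
    qp x - 2 * (1 / 1000000) ≤ sst x := by
  have h := rs_js_approx h0 h1
  have hu : 4 * x ^ 2 ≤ 13 := by nlinarith
  obtain ⟨a0, a1, a2, as, -⟩ := A_bounds (by positivity : 0 ≤ 4 * x ^ 2) hu
  set Z : ℂ := (((rs x (√3) : ℝ) : ℂ) + ((js x (√3) : ℝ) : ℂ) * Complex.I) with hZ
  set P : ℂ := (4 * (x : ℂ)) *
        ((A0 (4 * x ^ 2) : ℝ) + (A1 (4 * x ^ 2) : ℝ) * ((-1 + (√3 : ℝ) * Complex.I) / 2) +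
          (A2 (4 * x ^ 2) : ℝ) * ((-1 - (√3 : ℝ) * Complex.I) / 2)) with hP
  have hZn : ‖Z‖ ^ 2 = 16 * sst x := by
    rw [← Complex.normSq_eq_norm_sq, hZ, Complex.normSq_add_mul_I, ← js_rs_sq x]
    ring
  have hPn : ‖P‖ ^ 2 = 16 * qp x := by
    rw [← Complex.normSq_eq_norm_sq]
    have e : P = ((4 * x * (A0 (4 * x ^ 2) - (A1 (4 * x ^ 2) + A2 (4 * x ^ 2)) / 2) : ℝ) : ℂ) +
        ((4 * x * (√3 / 2 * (A1 (4 * x ^ 2) - A2 (4 * x ^ 2))) : ℝ) : ℂ) * Complex.I := by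
      rw [hP]; push_cast; ring
    rw [e, Complex.normSq_add_mul_I]
    unfold qp
    linear_combination 4 * x ^ 2 * (A1 (4 * x ^ 2) - A2 (4 * x ^ 2)) ^ 2 * sq3
  have hPb : ‖P‖ ≤ 37 := by
    have hω : ‖((-1 + (√3 : ℝ) * Complex.I) / 2 : ℂ)‖ = 1 := by
      have : ‖((-1 + (√3 : ℝ) * Complex.I) / 2 : ℂ)‖ ^ 2 = 1 ^ 2 := by
        rw [← Complex.normSq_eq_norm_sq, Complex.normSq_apply]
        simp
        have := sq3
        linarith
      nlinarith [norm_nonneg ((-1 + (√3 : ℝ) * Complex.I) / 2 : ℂ)]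
    have hω' : ‖((-1 - (√3 : ℝ) * Complex.I) / 2 : ℂ)‖ = 1 := by
      have : ‖((-1 - (√3 : ℝ) * Complex.I) / 2 : ℂ)‖ ^ 2 = 1 ^ 2 := by
        rw [← Complex.normSq_eq_norm_sq, Complex.normSq_apply]
        simp
        have := sq3
        linarith
      nlinarith [norm_nonneg ((-1 - (√3 : ℝ) * Complex.I) / 2 : ℂ)]
    have n4 : ‖(4 * (x : ℂ))‖ = 4 * x := by
      rw [norm_mul, Complex.norm_real, Real.norm_of_nonneg h0]; norm_num
    have h6 := norm_add₃_le (a := ((A0 (4 * x ^ 2) : ℝ) : ℂ))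
      (b := (A1 (4 * x ^ 2) : ℝ) * ((-1 + (√3 : ℝ) * Complex.I) / 2))
      (c := (A2 (4 * x ^ 2) : ℝ) * ((-1 - (√3 : ℝ) * Complex.I) / 2))
    rw [norm_mul, norm_mul, hω, hω', Complex.norm_real, Complex.norm_real, Complex.norm_real,
      Real.norm_of_nonneg a0, Real.norm_of_nonneg a1, Real.norm_of_nonneg a2] at h6
    rw [hP, norm_mul, n4]
    nlinarith [norm_nonneg (((A0 (4 * x ^ 2) : ℝ) : ℂ) + (A1 (4 * x ^ 2) : ℝ) *
      ((-1 + (√3 : ℝ) * Complex.I) / 2) + (A2 (4 * x ^ 2) : ℝ) * ((-1 - (√3 : ℝ) * Complex.I) / 2))]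
  have t1 : ‖P‖ ≤ ‖Z‖ + ‖Z - P‖ := by
    have := norm_sub_norm_le P Z
    rw [norm_sub_rev] at this
    linarith
  have t2 : ‖Z‖ ≤ ‖P‖ + ‖Z - P‖ := by
    have := norm_sub_norm_le Z P
    linarith
  have t3 : ‖P‖ ≤ ‖Z‖ + 22 / 100000000 := by linarith
  have t4 : ‖Z‖ ≤ 38 := by linarith
  have t5 : ‖P‖ ^ 2 ≤ (‖Z‖ + 22 / 100000000) ^ 2 := pow_le_pow_left₀ (norm_nonneg _) t3 2
  nlinarith [norm_nonneg Z]

/-! ### monotonicity -/

theorem sst_mono {x y : ℝ} (hx : 0 ≤ x) (hxy : x ≤ y) : sst x ≤ sst y := by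
  have hd : ∀ z : ℝ, HasDerivAt sst ((2 * (Real.sinh z * Real.cosh z) +
      2 * (Real.sin (√3 * z) * (Real.cos (√3 * z) * √3))) / 4) z := by
    intro z
    have h1 := (Real.hasDerivAt_sinh z).pow 2
    have h2 : HasDerivAt (fun z => √3 * z) (√3) z := by
      simpa using (hasDerivAt_id z).const_mul (√3)
    have h3 := (h2.sin).pow 2
    have h4 := (h1.add h3).div_const 4
    refine h4.congr_deriv ?_
    push_cast
    ring
  have hm : MonotoneOn sst (Set.Ici 0) := by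
    refine monotoneOn_of_deriv_nonneg (convex_Ici 0)
      (fun z _ => (hd z).continuousAt.continuousWithinAt)
      (fun z _ => (hd z).differentiableAt.differentiableWithinAt) ?_
    intro z hz
    rw [interior_Ici, Set.mem_Ioi] at hz
    rw [(hd z).deriv]
    have e1 : 2 * (Real.sinh z * Real.cosh z) = Real.sinh (2 * z) := by
      rw [Real.sinh_two_mul]; ring
    have e2 : 2 * (Real.sin (√3 * z) * (Real.cos (√3 * z) * √3)) = √3 * Real.sin (2 * (√3 * z)) := by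
      rw [Real.sin_two_mul]; ring
    rw [e1, e2]
    have h3 := sq3
    have h30 : 0 < √3 := Real.sqrt_pos.2 (by norm_num)
    by_cases hc : 2 * (√3 * z) ≤ Real.pi
    · have s1 : 0 ≤ Real.sin (2 * (√3 * z)) :=
        Real.sin_nonneg_of_nonneg_of_le_pi (by positivity) hc
      have s2 : 0 ≤ Real.sinh (2 * z) := Real.sinh_nonneg_iff.2 (by linarith)
      positivity
    · push Not at hc
      have s1 : -1 ≤ Real.sin (2 * (√3 * z)) := Real.neg_one_le_sin _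
      have s2 : 2 * z ≤ Real.sinh (2 * z) := Real.self_le_sinh_iff.2 (by linarith)
      have s3 : √3 ≤ 2 * z := by
        have := Real.pi_gt_three
        by_contra hcc
        push Not at hcc
        nlinarith
      nlinarith
  exact hm hx (Set.mem_Ici.2 (hx.trans hxy)) hxy

theorem sqrt3_le : √3 ≤ 17321 / 10000 := by
  rw [Real.sqrt_le_left (by norm_num)]; norm_num

theorem js_mono {x y : ℝ} (hx : 0 ≤ x) (hxy : x ≤ y) (hy : y ≤ 9 / 5) : js x (√3) ≤ js y (√3) := by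
  have hd : ∀ z : ℝ, HasDerivAt (fun z => js z (√3)) (4 * (Real.sinh z * Real.sin (√3 * z))) z := by
    intro z
    have h2 : HasDerivAt (fun z => √3 * z) (√3) z := by
      simpa using (hasDerivAt_id z).const_mul (√3)
    have h3 := (Real.hasDerivAt_cosh z).mul h2.sin
    have h4 := ((Real.hasDerivAt_sinh z).mul h2.cos).const_mul (√3)
    have h5 := h3.sub h4
    refine h5.congr_deriv ?_
    linear_combination Real.sinh z * Real.sin (√3 * z) * sq3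
  have hm : MonotoneOn (fun z => js z (√3)) (Set.Icc 0 (9 / 5)) := by
    refine monotoneOn_of_deriv_nonneg (convex_Icc _ _)
      (fun z _ => (hd z).continuousAt.continuousWithinAt)
      (fun z _ => (hd z).differentiableAt.differentiableWithinAt) ?_
    intro z hz
    rw [interior_Icc, Set.mem_Ioo] at hz
    rw [(hd z).deriv]
    have h30 : 0 < √3 := Real.sqrt_pos.2 (by norm_num)
    have h31 := sqrt3_le
    have hpi := Real.pi_gt_d4
    have s1 : 0 ≤ Real.sin (√3 * z) :=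
      Real.sin_nonneg_of_nonneg_of_le_pi (mul_nonneg h30.le hz.1.le) (by nlinarith)
    have s2 : 0 ≤ Real.sinh z := Real.sinh_nonneg_iff.2 hz.1.le
    positivity
  exact hm ⟨hx, hxy.trans hy⟩ ⟨hx.trans hxy, hy⟩ hxy

theorem js_nonneg {x : ℝ} (hx : 0 ≤ x) (hy : x ≤ 9 / 5) : 0 ≤ js x (√3) := by
  have := js_mono le_rfl hx hy
  have e : js 0 (√3) = 0 := by unfold js; simp
  rwa [e] at this

theorem rs_nonneg {x : ℝ} (hx : 0 ≤ x) (hy : x ≤ 3 / 2) : 0 ≤ rs x (√3) := by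
  unfold rs
  have h30 : 0 < √3 := Real.sqrt_pos.2 (by norm_num)
  have h31 := sqrt3_le
  have hpi := Real.pi_gt_d4
  have hθ : √3 * x ≤ 5 * Real.pi / 6 := by nlinarith
  have hθ0 : 0 ≤ √3 * x := by positivity
  have s1 : 0 ≤ Real.sin (√3 * x) :=
    Real.sin_nonneg_of_nonneg_of_le_pi hθ0 (by linarith)
  have s2 : 0 ≤ Real.sin (√3 * x + Real.pi / 6) :=
    Real.sin_nonneg_of_nonneg_of_le_pi (by linarith) (by linarith)
  rw [Real.sin_add, Real.cos_pi_div_six, Real.sin_pi_div_six] at s2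
  have s3 : 0 ≤ Real.sinh x := Real.sinh_nonneg_iff.2 hx
  have s4 : Real.sinh x ≤ Real.cosh x := (Real.sinh_lt_cosh x).le
  have s5 : 0 ≤ Real.sinh x * (Real.sin (√3 * x) * (√3 / 2) + Real.cos (√3 * x) * (1 / 2)) :=
    mul_nonneg s3 s2
  have s6 : √3 * (Real.sinh x * Real.sin (√3 * x)) ≤ √3 * (Real.cosh x * Real.sin (√3 * x)) :=
    mul_le_mul_of_nonneg_left (mul_le_mul_of_nonneg_right s4 s1) h30.le
  nlinarith

theorem Q_le_one (x : ℝ) : Q x ≤ 1 := by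
  unfold Q
  split_ifs with h
  · refine div_le_one_of_le₀ ?_ (by positivity)
    nlinarith [sq_nonneg (rs x (√3))]
  · exact le_rfl

theorem Q_eq {x : ℝ} (hx : 0 ≤ x) (hy : x ≤ 3 / 2) : Q x = js x (√3) ^ 2 / (16 * sst x) := by
  unfold Q
  rw [if_pos (rs_nonneg hx hy), js_rs_sq]

theorem sinh_le_poly {y : ℝ} (h0 : 0 ≤ y) (h1 : y ≤ 1) :
    Real.sinh y ≤ y + y ^ 3 / 6 + y ^ 5 / 120 + y ^ 7 / 5040 + y ^ 9 / 362880 + 1 / 1000000 := by
  have b1 := Real.exp_bound (x := y) (n := 10) (by rw [abs_of_nonneg h0]; exact h1) (by norm_num)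
  have b2 := Real.exp_bound (x := -y) (n := 10) (by rw [abs_neg, abs_of_nonneg h0]; exact h1)
    (by norm_num)
  rw [abs_neg] at b2
  have hb : |y| ^ 10 * ((Nat.succ 10 : ℕ) / ((Nat.factorial 10 : ℕ) * (10 : ℕ)) : ℝ) ≤ 1 / 1000000 := by
    have : |y| ^ 10 ≤ 1 := pow_le_one₀ (abs_nonneg _) (by rw [abs_of_nonneg h0]; exact h1)
    have h2 : ((Nat.succ 10 : ℕ) / ((Nat.factorial 10 : ℕ) * (10 : ℕ)) : ℝ) ≤ 1 / 1000000 := by
      norm_num [Nat.factorial]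
    calc _ ≤ 1 * ((Nat.succ 10 : ℕ) / ((Nat.factorial 10 : ℕ) * (10 : ℕ)) : ℝ) := by gcongr
      _ ≤ _ := by linarith
  have c1 := (abs_le.1 b1).2
  have c2 := (abs_le.1 b2).1
  rw [Real.sinh_eq]
  have e : (∑ m ∈ Finset.range 10, y ^ m / (m.factorial : ℝ)) -
      (∑ m ∈ Finset.range 10, (-y) ^ m / (m.factorial : ℝ)) =
      2 * (y + y ^ 3 / 6 + y ^ 5 / 120 + y ^ 7 / 5040 + y ^ 9 / 362880) := by
    simp only [Finset.sum_range_succ, Finset.sum_range_zero, Nat.factorial]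
    push_cast
    ring
  linarith

end Pool.Agent.Helper83.TW
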