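import Pool.Agent.Helper83.TW.Table

/-!
# The path
-/

set_option autoImplicit false

namespace Pool.Agent.Helper83.TW

open Pool.Agent.Helper27.TW

/-! ### facts on the table -/

theorem cond_k {k : ℕ} (hk : k < 588) : cond k = true :=
  List.all_eq_true.1 cond_all k (List.mem_range.2 hk)

theorem lam_succ : ∀ k < 587, lam k ≤ lam (k + 1) := by decide +kernel

theorem lam_mono {i j : ℕ} (hij : i ≤ j) (hj : j < 588) : lam i ≤ lam j := by
  induction j, hij using Nat.le_induction with
  | base => exact le_rfl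
  | succ n hn ih => exact (ih (by omega)).trans (lam_succ n (by omega))

theorem lam_zero : ∀ k < 4, lam k = 0 := by decide +kernel

theorem lam_584 : lam 584 = 1160 := by decide +kernel

theorem lam_587 : lam 587 = 1160 := by decide +kernel

theorem LL_588 : LL 588 = 370814 := by decide +kernel

theorem tbl_length : tbl.length = 588 := by decide +kernel

theorem LL_eq : ∀ n ≤ 588, LL n = ∑ i ∈ Finset.range n, lam i := by
  intro n
  induction n with
  | zero => intro _; rfl
  | succ n ih =>
    intro hn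
    rw [Finset.sum_range_succ, ← ih (by omega)]
    have hl : n < tbl.length := by rw [tbl_length]; omega
    unfold LL
    rw [List.take_add_one, List.sum_append]
    congr 1
    unfold lam
    rw [List.getD_eq_getElem?_getD]
    rw [List.getElem?_eq_getElem hl]
    simp

/-! ### the path -/

noncomputable def xr (i : ℕ) : ℝ := (132 + i : ℕ) / 400

theorem xr_succ (i : ℕ) : xr (i + 1) = xr i + 1 / 400 := by
  unfold xr; push_cast; ring

theorem xr_mono {i j : ℕ} (h : i ≤ j) : xr i ≤ xr j := by
  have : (i : ℝ) ≤ j := by exact_mod_cast h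
  unfold xr
  push_cast
  linarith

theorem xr_zero : xr 0 = 33 / 100 := by unfold xr; norm_num

theorem xr_588 : xr 588 = 9 / 5 := by unfold xr; norm_num

noncomputable def ph (i : ℕ) (x : ℝ) : ℝ := max (xr i) (min x (xr (i + 1))) - xr i

theorem ph_nonneg (i : ℕ) (x : ℝ) : 0 ≤ ph i x := sub_nonneg.2 (le_max_left _ _)

theorem ph_le (i : ℕ) (x : ℝ) : ph i x ≤ 1 / 400 := by
  unfold ph
  have h := xr_succ i
  have : max (xr i) (min x (xr (i + 1))) ≤ xr i + 1 / 400 :=
    max_le (by linarith) ((min_le_right _ _).trans h.le)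
  linarith

theorem ph_zero {i : ℕ} {x : ℝ} (h : x ≤ xr i) : ph i x = 0 := by
  unfold ph
  rw [max_eq_left ((min_le_left _ _).trans h), sub_self]

theorem ph_mono (i : ℕ) {x y : ℝ} (h : x ≤ y) : ph i x ≤ ph i y := by
  unfold ph
  have := max_le_max (le_refl (xr i)) (min_le_min h (le_refl (xr (i + 1))))
  linarith

theorem ph_full {i : ℕ} {x : ℝ} (h : xr (i + 1) ≤ x) : ph i x = 1 / 400 := by
  unfold ph
  have h1 := xr_succ i
  rw [min_eq_right h, max_eq_right (by linarith)]
  linarith

theorem sum_ph (n : ℕ) (x : ℝ) :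
    ∑ i ∈ Finset.range n, ph i x = max (xr 0) (min x (xr n)) - xr 0 := by
  induction n with
  | zero => simp
  | succ n ih =>
    rw [Finset.sum_range_succ, ih]
    unfold ph
    have h1 := xr_succ n
    have h0 := xr_mono (Nat.zero_le n)
    rcases le_total x (xr n) with h | h
    · rw [min_eq_left h, min_eq_left (by linarith : x ≤ xr (n + 1)), max_eq_left h]
      ring
    · rw [min_eq_right h, max_eq_right h0]
      rcases le_total x (xr (n + 1)) with h2 | h2
      · rw [min_eq_left h2, max_eq_right h, max_eq_right (h0.trans h)]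
        ring
      · rw [min_eq_right h2, max_eq_right (by linarith), max_eq_right (by linarith)]
        ring

noncomputable def cl (x : ℝ) : ℝ := max (33 / 100) (min x (9 / 5))

noncomputable def hg (x : ℝ) : ℝ := max 0 (x - 9 / 5)

theorem sum_ph' (x : ℝ) : ∑ i ∈ Finset.range 588, ph i x = cl x - 33 / 100 := by
  rw [sum_ph, xr_zero, xr_588]; rfl

theorem cl_hg (x : ℝ) : cl x + hg x = max (33 / 100) x := by
  unfold cl hg
  rcases le_total x (9 / 5) with h | h
  · rw [min_eq_left h, max_eq_left (by linarith : x - 9 / 5 ≤ 0)]; ring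
  · rw [min_eq_right h, max_eq_right (by linarith : 0 ≤ x - 9 / 5),
      max_eq_right (by norm_num : (33 / 100 : ℝ) ≤ 9 / 5), max_eq_right (by linarith)]
    ring

theorem cl_mono {x y : ℝ} (h : x ≤ y) : cl x ≤ cl y :=
  max_le_max le_rfl (min_le_min h le_rfl)

theorem hg_mono {x y : ℝ} (h : x ≤ y) : hg x ≤ hg y :=
  max_le_max le_rfl (by linarith)

theorem cl_eq {x : ℝ} (h1 : 33 / 100 ≤ x) (h2 : x ≤ 9 / 5) : cl x = x := by
  unfold cl; rw [min_eq_left h2, max_eq_right h1]

theorem hg_eq {x : ℝ} (h2 : x ≤ 9 / 5) : hg x = 0 := by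
  unfold hg; exact max_eq_left (by linarith)

noncomputable def fl (x : ℝ) : ℝ := ∑ i ∈ Finset.range 588, (lam i : ℝ) / 1000 * ph i x

noncomputable def l (x : ℝ) : ℝ := fl x + hg x

theorem lam_nn (i : ℕ) : (0 : ℝ) ≤ (lam i : ℝ) / 1000 :=
  div_nonneg (Nat.cast_nonneg _) (by norm_num)

theorem fl_nonneg (x : ℝ) : 0 ≤ fl x :=
  Finset.sum_nonneg fun i _ => mul_nonneg (lam_nn i) (ph_nonneg i x)

theorem l_nonneg (x : ℝ) : 0 ≤ l x := add_nonneg (fl_nonneg x) (le_max_left _ _)

theorem l_mono {x y : ℝ} (h : x ≤ y) : l x ≤ l y := by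
  unfold l fl
  refine add_le_add (Finset.sum_le_sum fun i _ => ?_) (hg_mono h)
  exact mul_le_mul_of_nonneg_left (ph_mono i h) (lam_nn i)

/-- lower bound of the increment -/
theorem fl_lower {x y a : ℝ} (h : x ≤ y)
    (ha : ∀ i < 588, xr (i + 1) ≤ x ∨ a ≤ (lam i : ℝ) / 1000) :
    a * (cl y - cl x) ≤ fl y - fl x := by
  have e : cl y - cl x = ∑ i ∈ Finset.range 588, (ph i y - ph i x) := by
    rw [Finset.sum_sub_distrib, sum_ph', sum_ph']; ring
  unfold fl
  rw [e, ← Finset.sum_sub_distrib, Finset.mul_sum]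
  refine Finset.sum_le_sum fun i hi => ?_
  rw [← mul_sub]
  rcases ha i (Finset.mem_range.1 hi) with h1 | h1
  · rw [ph_full h1, ph_full (h1.trans h)]; simp
  · exact mul_le_mul_of_nonneg_right h1 (sub_nonneg.2 (ph_mono i h))

theorem fl_upper {x y : ℝ} (h : x ≤ y) : fl y - fl x ≤ 2 * (cl y - cl x) := by
  have e : cl y - cl x = ∑ i ∈ Finset.range 588, (ph i y - ph i x) := by
    rw [Finset.sum_sub_distrib, sum_ph', sum_ph']; ring
  unfold fl
  rw [e, ← Finset.sum_sub_distrib, Finset.mul_sum]
  refine Finset.sum_le_sum fun i hi => ?_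
  rw [← mul_sub]
  refine mul_le_mul_of_nonneg_right ?_ (sub_nonneg.2 (ph_mono i h))
  have h1 : lam i ≤ 1160 := by
    rw [← lam_587]
    have := Finset.mem_range.1 hi
    exact lam_mono (by omega) (by norm_num)
  have h2 : (lam i : ℝ) ≤ 1160 := by exact_mod_cast h1
  linarith

theorem fl_le {k : ℕ} (hk : k ≤ 588) {x : ℝ} (hx : x ≤ xr k) : fl x ≤ (LL k : ℝ) / 400000 := by
  have e : (LL k : ℝ) / 400000 = ∑ i ∈ Finset.range k, (lam i : ℝ) / 1000 * (1 / 400) := by
    rw [LL_eq k hk]
    push_cast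
    rw [Finset.sum_div]
    refine Finset.sum_congr rfl fun i _ => ?_
    ring
  have e2 : fl x = ∑ i ∈ Finset.range k, (lam i : ℝ) / 1000 * ph i x := by
    unfold fl
    symm
    refine Finset.sum_subset (Finset.range_subset_range.2 hk) fun i _ hi => ?_
    rw [Finset.mem_range, not_lt] at hi
    rw [ph_zero (hx.trans (xr_mono hi)), mul_zero]
  rw [e, e2]
  refine Finset.sum_le_sum fun i _ => ?_
  exact mul_le_mul_of_nonneg_left (ph_le i x) (lam_nn i)

theorem fl_le' (x : ℝ) : fl x ≤ 370814 / 400000 := by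
  have e : (370814 : ℝ) / 400000 = ∑ i ∈ Finset.range 588, (lam i : ℝ) / 1000 * (1 / 400) := by
    have h : ((LL 588 : ℕ) : ℝ) = 370814 := by rw [LL_588]; norm_num
    rw [← h, LL_eq 588 le_rfl]
    push_cast
    rw [Finset.sum_div]
    refine Finset.sum_congr rfl fun i _ => ?_
    ring
  rw [e]
  unfold fl
  refine Finset.sum_le_sum fun i _ => ?_
  exact mul_le_mul_of_nonneg_left (ph_le i x) (lam_nn i)

theorem exists_k {x : ℝ} (h1 : 33 / 100 ≤ x) (h2 : x ≤ 9 / 5) :
    ∃ k < 588, xr k ≤ x ∧ x ≤ xr (k + 1) := by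
  by_cases hx : x = 9 / 5
  · refine ⟨587, by norm_num, ?_, ?_⟩
    · rw [hx]; unfold xr; norm_num
    · rw [hx, xr_588]
  · have h3 : x < 9 / 5 := lt_of_le_of_ne h2 hx
    have h0 : 0 ≤ 400 * x - 132 := by linarith
    have f1 := Nat.floor_le h0
    have f2 := Nat.lt_floor_add_one (400 * x - 132)
    set k := ⌊400 * x - 132⌋₊
    refine ⟨k, ?_, ?_, ?_⟩
    · have : (k : ℝ) < 588 := by linarith
      exact_mod_cast this
    · unfold xr; push_cast; linarith
    · unfold xr; push_cast; linarith

/-! ### the numerical inequality -/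

theorem Shp_cast (y : ℚ) : ((Shp y : ℚ) : ℝ) = Shp (y : ℝ) := by
  unfold Shp; push_cast; ring

theorem qp_cast (x : ℚ) : ((qp x : ℚ) : ℝ) = qp (x : ℝ) := by
  unfold qp A0 A1 A2; push_cast; ring

theorem pp_cast (x : ℚ) : ((pp x : ℚ) : ℝ) = pp (x : ℝ) := by
  unfold pp A1 A2; push_cast; ring

theorem xq_cast (k : ℕ) : ((xq k : ℚ) : ℝ) = xr k := by
  unfold xq xr; push_cast; ring

theorem xr_bounds {k : ℕ} (hk : k ≤ 588) : 0 ≤ xr k ∧ xr k ≤ 9 / 5 := by
  have h : (k : ℝ) ≤ 588 := by exact_mod_cast hk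
  have h0 : (0 : ℝ) ≤ k := Nat.cast_nonneg k
  unfold xr
  push_cast
  constructor <;> linarith

theorem numeric {k : ℕ} (hk : k < 588) {x : ℝ} (h1 : xr k ≤ x) (h2 : x ≤ xr (k + 1)) :
    Real.sinh (l x + 1 / 1000) ^ 2 + Q x + 1 / 1000 ≤
      (1 + (lam k : ℝ) / 1000) ^ 2 / 4 * sst x ∧ l x < x := by
  have hc := cond_k hk
  unfold cond at hc
  simp only [Bool.and_eq_true, decide_eq_true_eq] at hc
  obtain ⟨⟨⟨c1, c2⟩, c3⟩, c4⟩ := hc
  have hx0 : 0 ≤ x := (xr_bounds hk.le).1.trans h1
  have hx1 : x ≤ 9 / 5 := h2.trans (xr_bounds hk).2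
  -- the value of `l`
  have hl : l x ≤ (LL (k + 1) : ℝ) / 400000 := by
    unfold l
    rw [hg_eq hx1, add_zero]
    exact fl_le hk h2
  set y : ℝ := (LL (k + 1) : ℝ) / 400000 + 1 / 1000 with hy
  have hyq : ((yqq k : ℚ) : ℝ) = y := by unfold yqq; rw [hy]; push_cast; ring
  have hy0 : 0 ≤ y := by positivity
  have hy1 : y ≤ 1 := by rw [← hyq]; exact_mod_cast c4
  have hsinh : Real.sinh (l x + 1 / 1000) ^ 2 ≤ Shp y ^ 2 := by
    have a1 : Real.sinh (l x + 1 / 1000) ≤ Real.sinh y := Real.sinh_le_sinh.2 (by linarith)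
    have a2 : Real.sinh y ≤ Shp y := sinh_le_poly hy0 hy1
    have a3 : 0 ≤ Real.sinh (l x + 1 / 1000) :=
      Real.sinh_nonneg_iff.2 (by have := l_nonneg x; linarith)
    exact pow_le_pow_left₀ a3 (a1.trans a2) 2
  -- the value of `sst`
  set s : ℝ := ((sqq k : ℚ) : ℝ) with hs
  have hs0 : 0 < s := by rw [hs]; exact_mod_cast c1
  have hss : s ≤ sst x := by
    have b1 := sst_ge (xr_bounds hk.le).1 (xr_bounds hk.le).2
    have b2 := sst_mono (xr_bounds hk.le).1 h1
    have b3 : s = qp (xr k) - 2 * (1 / 1000000) := by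
      rw [hs]; unfold sqq; push_cast; rw [qp_cast, xq_cast]
    linarith
  set lm : ℝ := (lam k : ℝ) / 1000 with hlm
  have hlm0 : 0 ≤ lm := lam_nn k
  refine ⟨?_, ?_⟩
  · by_cases hk2 : k ≤ 467
    · rw [if_pos hk2, decide_eq_true_eq] at c2
      have hx32 : x ≤ 3 / 2 := by
        refine h2.trans ?_
        have : (k : ℝ) ≤ 467 := by exact_mod_cast hk2
        unfold xr; push_cast; linarith
      have hx321 : xr (k + 1) ≤ 3 / 2 := by
        have : (k : ℝ) ≤ 467 := by exact_mod_cast hk2
        unfold xr; push_cast; linarith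
      rw [Q_eq hx0 hx32]
      set J : ℝ := ((jqq k : ℚ) : ℝ) with hJ
      have hj : js x (√3) ^ 2 ≤ J := by
        have d1 := js_mono hx0 h2 (xr_bounds hk).2
        have d2 := js_nonneg hx0 hx1
        have d3 := js_sq_le (xr_bounds hk).1 (xr_bounds hk).2
        have d4 : J = 12 * pp (xr (k + 1)) ^ 2 + (7 * pp (xr (k + 1)) + 1) * (1 / 1000000) := by
          rw [hJ]; unfold jqq; push_cast; rw [pp_cast, xq_cast]
        rw [d4]
        exact (pow_le_pow_left₀ d2 d1 2).trans d3
      have c2' : 16 * s * (Shp y ^ 2 + 1 / 1000) + J ≤ 4 * (1 + lm) ^ 2 * s ^ 2 := by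
        have := (Rat.cast_le (K := ℝ)).2 c2
        push_cast at this
        rw [Shp_cast, hyq] at this
        simpa [hs, hJ, hlm] using this
      have hJ0 : 0 ≤ J := (sq_nonneg _).trans hj
      have hS0 : 0 < sst x := hs0.trans_le hss
      set S : ℝ := sst x
      have hQ : js x (√3) ^ 2 / (16 * S) ≤ J / (16 * S) := by gcongr
      have key : 16 * S * (Shp y ^ 2 + 1 / 1000) + J ≤ 4 * (1 + lm) ^ 2 * S ^ 2 := by
        have k1 : 0 ≤ (S - s) * (4 * (1 + lm) ^ 2 * (s * S) + J) :=
          mul_nonneg (sub_nonneg.2 hss) (by positivity)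
        have k2 : 0 ≤ S * (4 * (1 + lm) ^ 2 * s ^ 2 - (16 * s * (Shp y ^ 2 + 1 / 1000) + J)) :=
          mul_nonneg hS0.le (sub_nonneg.2 c2')
        have k3 : s * (4 * (1 + lm) ^ 2 * S ^ 2 - (16 * S * (Shp y ^ 2 + 1 / 1000) + J)) =
          (S - s) * (4 * (1 + lm) ^ 2 * (s * S) + J) +
          S * (4 * (1 + lm) ^ 2 * s ^ 2 - (16 * s * (Shp y ^ 2 + 1 / 1000) + J)) := by ring
        have k4 : 0 ≤ s * (4 * (1 + lm) ^ 2 * S ^ 2 - (16 * S * (Shp y ^ 2 + 1 / 1000) + J)) := by
          rw [k3]; exact add_nonneg k1 k2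
        have k5 := nonneg_of_mul_nonneg_right k4 hs0
        linarith
      have key2 : Shp y ^ 2 + J / (16 * S) + 1 / 1000 ≤ (1 + lm) ^ 2 / 4 * S := by
        have e : Shp y ^ 2 + J / (16 * S) + 1 / 1000 =
            (16 * S * (Shp y ^ 2 + 1 / 1000) + J) / (16 * S) := by
          field_simp
          ring
        rw [e, div_le_iff₀ (by positivity)]
        calc _ ≤ 4 * (1 + lm) ^ 2 * S ^ 2 := key
          _ = _ := by ring
      linarith
    · rw [if_neg hk2, decide_eq_true_eq] at c2
      have c2' : Shp y ^ 2 + 1 + 1 / 1000 ≤ (1 + lm) ^ 2 / 4 * s := by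
        have := (Rat.cast_le (K := ℝ)).2 c2
        push_cast at this
        rw [Shp_cast, hyq] at this
        simpa [hs, hlm] using this
      have hq := Q_le_one x
      have h3 : (1 + lm) ^ 2 / 4 * s ≤ (1 + lm) ^ 2 / 4 * sst x :=
        mul_le_mul_of_nonneg_left hss (by positivity)
      linarith
  · have c3' : (LL (k + 1) : ℝ) / 400000 < xr k := by
      have := (Rat.cast_lt (K := ℝ)).2 c3
      push_cast at this
      rw [xq_cast] at this
      exact this
    linarith

/-! ### the end -/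

theorem exp_a : Real.exp (871 / 1000) ≤ 23894 / 10000 := by
  have := Real.exp_bound' (x := 871 / 1000) (by norm_num) (by norm_num) (n := 10) (by norm_num)
  refine this.trans ?_
  simp only [Finset.sum_range_succ, Finset.sum_range_zero, Nat.factorial]
  norm_num

theorem exp_b : 23889 / 10000 ≤ Real.exp (871 / 1000) := by
  have := Real.sum_le_exp_of_nonneg (x := 871 / 1000) (by norm_num) 10
  refine le_trans ?_ this
  simp only [Finset.sum_range_succ, Finset.sum_range_zero, Nat.factorial]
  norm_num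

theorem exp_c : 358 / 10 ≤ Real.exp (358 / 100) := by
  have := Real.sum_le_exp_of_nonneg (x := 358 / 100) (by norm_num) 14
  refine le_trans ?_ this
  simp only [Finset.sum_range_succ, Finset.sum_range_zero, Nat.factorial]
  norm_num

theorem end_ineq {x y : ℝ} (hx : 179 / 100 ≤ x) (hy0 : 0 ≤ y) (hy : y ≤ x - 871 / 1000) :
    2 * Real.cosh y < Real.sinh x := by
  have h1 : Real.cosh y ≤ Real.cosh (x - 871 / 1000) := by
    rw [Real.cosh_le_cosh, abs_of_nonneg hy0, abs_of_nonneg (by linarith)]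
    exact hy
  rw [Real.cosh_eq, Real.cosh_eq] at h1
  rw [Real.cosh_eq, Real.sinh_eq]
  have e1 : Real.exp (x - 871 / 1000) = Real.exp x * (Real.exp (871 / 1000))⁻¹ := by
    rw [sub_eq_add_neg, Real.exp_add, Real.exp_neg]
  have e2 : Real.exp (-(x - 871 / 1000)) = (Real.exp x)⁻¹ * Real.exp (871 / 1000) := by
    rw [neg_sub, sub_eq_add_neg, Real.exp_add, Real.exp_neg]; ring
  rw [e1, e2] at h1
  rw [Real.exp_neg x]
  have hX : Real.exp x * Real.exp x = Real.exp (2 * x) := by rw [← Real.exp_add]; ring_nf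
  have hX2 : 358 / 10 ≤ Real.exp (2 * x) := exp_c.trans (Real.exp_le_exp.2 (by linarith))
  have ha := exp_a
  have hb := exp_b
  set X := Real.exp x
  set c := Real.exp (871 / 1000)
  have hX0 : 0 < X := Real.exp_pos x
  have hc0 : 0 < c := Real.exp_pos _
  have hci : c⁻¹ ≤ 4187 / 10000 := by
    rw [inv_le_comm₀ hc0 (by norm_num)]
    refine le_trans ?_ hb
    norm_num
  rw [← hX] at hX2
  have hXi : X⁻¹ * X = 1 := inv_mul_cancel₀ hX0.ne'
  have hXi0 : 0 < X⁻¹ := inv_pos.2 hX0
  have goal' : X * c⁻¹ + X⁻¹ * c < (X - X⁻¹) / 2 := by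
    have k1 : X * c⁻¹ ≤ X * (4187 / 10000) := mul_le_mul_of_nonneg_left hci hX0.le
    have k2 : X⁻¹ * c ≤ X⁻¹ * (23894 / 10000) := mul_le_mul_of_nonneg_left ha hXi0.le
    have k3 : X⁻¹ * (358 / 10) ≤ X := by
      have := mul_le_mul_of_nonneg_left hX2 hXi0.le
      calc X⁻¹ * (358 / 10) ≤ X⁻¹ * (X * X) := this
        _ = (X⁻¹ * X) * X := by ring
        _ = X := by rw [hXi, one_mul]
    nlinarith
  linarith

theorem path : Pool.Agent.Helper27.TW.Path l (1 / 1000) where
  eps := by norm_num
  zero := by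
    intro x hx
    unfold l
    rw [hg_eq (by linarith), add_zero]
    unfold fl
    refine Finset.sum_eq_zero fun i _ => ?_
    by_cases hi : i < 4
    · rw [lam_zero i hi]; simp
    · rw [ph_zero, mul_zero]
      push Not at hi
      have := xr_mono hi
      have e : xr 4 = 34 / 100 := by unfold xr; norm_num
      linarith
  mono := fun x y h => l_mono h
  lip := by
    intro x y h
    have h1 := fl_upper h
    have h2 := hg_mono h
    have h3 := cl_hg x
    have h4 := cl_hg y
    have h5 : max (33 / 100 : ℝ) y - max (33 / 100) x ≤ y - x := by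
      rcases le_total (33 / 100) x with hc | hc
      · rw [max_eq_right hc, max_eq_right (hc.trans h)]
      · rw [max_eq_left hc]
        rcases le_total (33 / 100) y with hd | hd
        · rw [max_eq_right hd]; linarith
        · rw [max_eq_left hd]; linarith
    unfold l
    linarith
  lt := by
    intro x hx
    rcases le_total x (33 / 100) with h | h
    · have : l x = 0 := by
        unfold l
        rw [hg_eq (by linarith), add_zero]
        unfold fl
        refine Finset.sum_eq_zero fun i _ => ?_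
        rw [ph_zero, mul_zero]
        exact h.trans (xr_zero ▸ xr_mono (Nat.zero_le i))
      linarith
    · rcases le_total x (9 / 5) with h2 | h2
      · obtain ⟨k, hk, h3, h4⟩ := exists_k h h2
        exact (numeric hk h3 h4).2
      · have h3 := fl_le' x
        have h4 : hg x = x - 9 / 5 := max_eq_right (by linarith)
        unfold l
        rw [h4]
        linarith
  mid := by
    intro x h1 h2
    obtain ⟨k, hk, h3, h4⟩ := exists_k h1 h2
    refine ⟨(lam k : ℝ) / 1000, lam_nn k, ?_, ?_, (numeric hk h3 h4).1⟩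
    · have e1 : lam k ≤ 1160 := by
        rw [← lam_587]
        exact lam_mono (by omega) (by norm_num)
      have e2 : (lam k : ℝ) ≤ 1160 := by exact_mod_cast e1
      linarith
    · intro y hy1 hy2
      have h5 := fl_lower (a := (lam k : ℝ) / 1000) hy1 (by
        intro i hi
        by_cases hik : i < k
        · left
          exact (xr_mono (by omega : i + 1 ≤ k)).trans h3
        · right
          have : lam k ≤ lam i := lam_mono (by omega) hi
          have : (lam k : ℝ) ≤ lam i := by exact_mod_cast this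
          linarith)
      rw [cl_eq h1 h2, cl_eq (h1.trans hy1) hy2] at h5
      unfold l
      rw [hg_eq h2, hg_eq hy2]
      linarith
  top := by
    intro x hx
    have hslope : ∀ y z, 179 / 100 ≤ y → y ≤ z → z - y ≤ l z - l y := by
      intro y z hy hyz
      have h5 := fl_lower (a := 1) hyz (by
        intro i hi
        by_cases hik : i < 584
        · left
          have := xr_mono (by omega : i + 1 ≤ 584)
          have e : xr 584 = 179 / 100 := by unfold xr; norm_num
          linarith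
        · right
          have : lam 584 ≤ lam i := lam_mono (by omega) hi
          rw [lam_584] at this
          have : (1160 : ℝ) ≤ lam i := by exact_mod_cast this
          linarith)
      have h3 := cl_hg y
      have h4 := cl_hg z
      rw [max_eq_right (by linarith)] at h3 h4
      unfold l
      linarith
    refine ⟨fun y hy => hslope x y hx hy, ?_⟩
    refine end_ineq hx (by have := l_nonneg x; linarith) ?_
    rcases le_total x (9 / 5) with h | h
    · have h6 := hslope x (9 / 5) hx h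
      have h7 := fl_le' (9 / 5)
      have h8 : l (9 / 5) = fl (9 / 5) := by unfold l; rw [hg_eq le_rfl, add_zero]
      rw [h8] at h6
      linarith
    · have h7 := fl_le' x
      have h4 : hg x = x - 9 / 5 := max_eq_right (by linarith)
      unfold l
      rw [h4]
      linarith

/-- TW6 + TW7 -/
theorem exists_path : ∃ (l : ℝ → ℝ) (ε : ℝ), Pool.Agent.Helper27.TW.Path l ε := ⟨l, 1 / 1000, path⟩

end Pool.Agent.Helper83.TW
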